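import Mathlib
import Pool.Agent.N119.PS.Stm4
import Pool.Agent.N119.PS.Cyl

set_option autoImplicit false

/-!
# Almost additivity of the mean displacement (subtask PSC4/SUB)
-/

namespace Pool.Agent.N137.PSC4

open Pool.Agent.N119.PS Pool.Agent.H472R3 Pool.Agent.H67R3.FSR Pool.Agent.H67R4.SR MeasureTheory
  Topology Filter
open scoped ENNReal NNReal

variable {N : ℕ}

theorem cyl_fin (μ : Current N) (g : FreeGroup (Fin N)) : μ.meas (Cyl g) ≠ ∞ :=
  (μ.finite _ (compact_Cyl g)).ne

theorem toWord_ini (e : FreeGroup (Fin N)) : (ini e).toWord = e.toWord.dropLast := by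
  have hr : FreeGroup.IsReduced e.toWord := FreeGroup.isReduced_toWord
  have h1 : FreeGroup.IsReduced e.toWord.dropLast := by
    unfold FreeGroup.IsReduced at hr ⊢
    exact hr.dropLast
  rw [ini, FreeGroup.toWord_mk, h1.reduce_eq]

theorem toWord_tl (e : FreeGroup (Fin N)) : (tl e).toWord = e.toWord.tail := by
  have hr : FreeGroup.IsReduced e.toWord := FreeGroup.isReduced_toWord
  have h1 : FreeGroup.IsReduced e.toWord.tail := by
    unfold FreeGroup.IsReduced at hr ⊢
    exact hr.tail
  rw [tl, FreeGroup.toWord_mk, h1.reduce_eq]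

theorem norm_ini {e : FreeGroup (Fin N)} {n : ℕ} (h : e.norm = n + 1) : (ini e).norm = n := by
  unfold FreeGroup.norm at *
  rw [toWord_ini, List.length_dropLast, h]
  rfl

theorem norm_tl {e : FreeGroup (Fin N)} {n : ℕ} (h : e.norm = n + 1) : (tl e).norm = n := by
  unfold FreeGroup.norm at *
  rw [toWord_tl, List.length_tail, h]
  rfl

theorem ini_iter (n : ℕ) (e : FreeGroup (Fin N)) :
    (ini^[n] e).toWord = e.toWord.take (e.norm - n) := by
  induction n with
  | zero =>
    change e.toWord = e.toWord.take e.toWord.length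
    rw [List.take_length]
  | succ n ih =>
    rw [Function.iterate_succ_apply', toWord_ini, ih, List.dropLast_eq_take, List.length_take,
      List.take_take]
    congr 1
    change min (min (e.norm - n) e.norm - 1) (e.norm - n) = _
    omega

theorem tl_iter (m : ℕ) (e : FreeGroup (Fin N)) : (tl^[m] e).toWord = e.toWord.drop m := by
  induction m with
  | zero => rfl
  | succ m ih =>
    rw [Function.iterate_succ_apply', toWord_tl, ih, List.tail_drop]

theorem sum_ini (h : S_KIR) (μ : Current N) (f : FreeGroup (Fin N) → ℝ) (j : ℕ) :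
    ∑ e ∈ sph N (j + 1), μ.meas.real (Cyl e) * f (ini e) =
      ∑ u ∈ sph N j, μ.meas.real (Cyl u) * f u := by
  classical
  have h0 : ∀ e ∈ sph N (j + 1), ini e ∈ sph N j := fun e he =>
    mem_sph.2 (norm_ini (mem_sph.1 he))
  rw [← Finset.sum_fiberwise_of_maps_to h0]
  refine Finset.sum_congr rfl fun v hv => ?_
  have h1 : ∑ e ∈ (sph N (j + 1)).filter (fun e => ini e = v), μ.meas.real (Cyl e) =
      μ.meas.real (Cyl v) := by
    rw [measureReal_def, ← (h N μ j).1 v (mem_sph.1 hv),
      ENNReal.toReal_sum fun e _ => cyl_fin μ e]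
    rfl
  rw [← h1, Finset.sum_mul]
  refine Finset.sum_congr (by congr) fun e he => ?_
  rw [(Finset.mem_filter.1 he).2]

theorem sum_tl (h : S_KIR) (μ : Current N) (f : FreeGroup (Fin N) → ℝ) (j : ℕ) :
    ∑ e ∈ sph N (j + 1), μ.meas.real (Cyl e) * f (tl e) =
      ∑ u ∈ sph N j, μ.meas.real (Cyl u) * f u := by
  classical
  have h0 : ∀ e ∈ sph N (j + 1), tl e ∈ sph N j := fun e he =>
    mem_sph.2 (norm_tl (mem_sph.1 he))
  rw [← Finset.sum_fiberwise_of_maps_to h0]
  refine Finset.sum_congr rfl fun v hv => ?_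
  have h1 : ∑ e ∈ (sph N (j + 1)).filter (fun e => tl e = v), μ.meas.real (Cyl e) =
      μ.meas.real (Cyl v) := by
    rw [measureReal_def, ← (h N μ j).2.1 v (mem_sph.1 hv),
      ENNReal.toReal_sum fun e _ => cyl_fin μ e]
    rfl
  rw [← h1, Finset.sum_mul]
  refine Finset.sum_congr (by congr) fun e he => ?_
  rw [(Finset.mem_filter.1 he).2]

theorem sum_ini_iter (h : S_KIR) (μ : Current N) (f : FreeGroup (Fin N) → ℝ) (m n : ℕ) :
    ∑ e ∈ sph N (m + n), μ.meas.real (Cyl e) * f (ini^[n] e) =
      ∑ u ∈ sph N m, μ.meas.real (Cyl u) * f u := by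
  induction n with
  | zero => rfl
  | succ n ih =>
    rw [← ih, ← add_assoc]
    simp only [Function.iterate_succ_apply]
    exact sum_ini h μ (fun u => f (ini^[n] u)) (m + n)

theorem sum_tl_iter (h : S_KIR) (μ : Current N) (f : FreeGroup (Fin N) → ℝ) (n m : ℕ) :
    ∑ e ∈ sph N (m + n), μ.meas.real (Cyl e) * f (tl^[m] e) =
      ∑ u ∈ sph N n, μ.meas.real (Cyl u) * f u := by
  induction m with
  | zero =>
    rw [zero_add]
    rfl
  | succ m ih =>
    rw [← ih, show m + 1 + n = m + n + 1 by ring]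
    simp only [Function.iterate_succ_apply]
    exact sum_tl h μ (fun u => f (tl^[m] u)) (m + n)

theorem split {e : FreeGroup (Fin N)} {m n : ℕ} (he : e.norm = m + n) :
    FreeGroup.IsReduced ((ini^[n] e).toWord ++ (tl^[m] e).toWord) ∧ ini^[n] e * tl^[m] e = e := by
  have h1 : (ini^[n] e).toWord ++ (tl^[m] e).toWord = e.toWord := by
    rw [ini_iter, tl_iter, he, Nat.add_sub_cancel, List.take_append_drop]
  constructor
  · rw [h1]
    exact FreeGroup.isReduced_toWord
  · rw [← FreeGroup.mk_toWord (x := ini^[n] e), ← FreeGroup.mk_toWord (x := tl^[m] e),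
      FreeGroup.mul_mk, h1, FreeGroup.mk_toWord]

theorem t (h : S_KIR) : S_SUB := by
  intro N A _ x μ m n
  have h1 : an A x μ m + an A x μ n = ∑ e ∈ sph N (m + n), μ.meas.real (Cyl e) *
      ((lenFn A x).L (ini^[n] e) + (lenFn A x).L (tl^[m] e)) := by
    unfold an
    rw [← sum_ini_iter h μ (lenFn A x).L m n, ← sum_tl_iter h μ (lenFn A x).L n m,
      ← Finset.sum_add_distrib]
    exact Finset.sum_congr rfl fun e _ => (mul_add _ _ _).symm
  constructor
  · rw [h1]
    unfold an
    refine Finset.sum_le_sum fun e he => mul_le_mul_of_nonneg_left ?_ measureReal_nonneg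
    obtain ⟨-, h2⟩ := split (mem_sph.1 he)
    conv_lhs => rw [← h2]
    exact tri _ _ _
  · intro C hC
    have h3 : an A x μ (m + n) + 2 * C * μ.meas.real (U 1) =
        ∑ e ∈ sph N (m + n), μ.meas.real (Cyl e) * ((lenFn A x).L e + 2 * C) := by
      rw [← (t_cyl N).2.2 μ (m + n), Finset.mul_sum]
      unfold an
      rw [← Finset.sum_add_distrib]
      exact Finset.sum_congr rfl fun e _ => by ring
    rw [h1, h3]
    refine Finset.sum_le_sum fun e he => mul_le_mul_of_nonneg_left ?_ measureReal_nonneg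
    obtain ⟨h4, h2⟩ := split (mem_sph.1 he)
    have h5 := hC.2 _ _ h4
    rwa [h2] at h5

end Pool.Agent.N137.PSC4
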